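import Mathlib

/-!
# Integers whose cheapest representation as a sum of distinct primes has many summands
-/

set_option autoImplicit false

open Finset

namespace Pool.Agent.Q53.DP

/-- `T` is a set of primes whose product is smaller than that of every other set of primes with the same
sum -/
def Cheap (T : Finset ℕ) : Prop := (∀ p ∈ T, p.Prime) ∧
  ∀ U : Finset ℕ, (∀ p ∈ U, p.Prime) → ∑ p ∈ U, p = ∑ p ∈ T, p → U ≠ T → ∏ p ∈ T, p < ∏ p ∈ U, p

theorem cheap_empty : Cheap ∅ := by
  refine ⟨by simp, fun U hU hs hne => ?_⟩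
  exfalso
  apply hne
  rw [sum_empty, sum_eq_zero_iff] at hs
  rw [eq_empty_iff_forall_notMem]
  intro p hp
  exact (hU p hp).pos.ne' (hs p hp)

theorem one_le_prod (U : Finset ℕ) (hU : ∀ p ∈ U, 2 ≤ p) : 1 ≤ ∏ p ∈ U, p :=
  prod_pos fun p hp => Nat.lt_of_lt_of_le (by norm_num) (hU p hp)

theorem sum_le_prod (U : Finset ℕ) (hU : ∀ p ∈ U, 2 ≤ p) : ∑ p ∈ U, p ≤ ∏ p ∈ U, p := by
  classical
  rcases U.eq_empty_or_nonempty with rfl | hne
  · simp
  induction hne using Finset.Nonempty.cons_induction with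
  | singleton a => simp
  | cons a s h hs ih =>
    rw [sum_cons, prod_cons]
    have h1 := ih fun p hp => hU p (mem_cons_of_mem hp)
    have h2 := hU a (mem_cons_self a s)
    obtain ⟨b, hb⟩ := hs
    have h3 : 2 ≤ ∏ p ∈ s, p := by
      have h4 : b ∣ ∏ p ∈ s, p := dvd_prod_of_mem (fun p => p) hb
      have h5 := one_le_prod s fun p hp => hU p (mem_cons_of_mem hp)
      exact (hU b (mem_cons_of_mem hb)).trans (Nat.le_of_dvd h5 h4)
    nlinarith

/-- the next prime -/
theorem step {T : Finset ℕ} (hT : Cheap T) (B : ℕ) : ∃ q : ℕ, B < q ∧ q ∉ T ∧ Cheap (insert q T) := by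
  classical
  set s := ∑ p ∈ T, p with hs
  set P := ∏ p ∈ T, p with hP
  set K := 2 * P + s + 2 with hK
  set ℓ : ℕ → ℕ := fun t => Nat.nth Nat.Prime (K + t) with hℓ
  have hℓp : ∀ t, (ℓ t).Prime := fun t => Nat.prime_nth_prime _
  have hℓK : ∀ t, K < ℓ t := fun t => by
    have := Nat.add_two_le_nth_prime (K + t)
    simp only [hℓ]
    omega
  have hℓi : Function.Injective ℓ := by
    intro a b hab
    have := Nat.nth_injective Nat.infinite_setOfPred_prime hab
    omega
  set I := (range (K + 1)).erase s with hI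
  obtain ⟨k, hk⟩ := Nat.chineseRemainderOfFinset (fun t => t + ℓ t * s - s) ℓ I
    (fun t _ => (hℓp t).ne_zero) (by
      intro a _ b _ hab
      exact (Nat.coprime_primes (hℓp a) (hℓp b)).2 fun h => hab (hℓi h))
  -- `k + s ≡ t` modulo `ℓ t`
  have hks : ∀ t ∈ I, k + s ≡ t [MOD ℓ t] := by
    intro t ht
    have h1 := (hk t ht).add_right s
    have h2 : t + ℓ t * s - s + s = t + ℓ t * s := by
      have : s ≤ ℓ t * s := Nat.le_mul_of_pos_left _ (hℓp t).pos
      omega
    rw [h2] at h1
    refine h1.trans ?_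
    have h3 : t + ℓ t * s ≡ t + 0 [MOD ℓ t] := Nat.ModEq.add_left _ ((Nat.modEq_zero_iff_dvd).2 (Nat.dvd_mul_right _ _))
    simpa using h3
  have hcop : Nat.Coprime k (∏ t ∈ I, ℓ t) := by
    rw [Nat.coprime_prod_right_iff]
    intro t ht
    rw [Nat.coprime_comm, (hℓp t).coprime_iff_not_dvd]
    intro hd
    have h1 : s ≡ t [MOD ℓ t] := by
      have h2 : k + s ≡ 0 + s [MOD ℓ t] := Nat.ModEq.add_right _ ((Nat.modEq_zero_iff_dvd).2 hd)
      rw [zero_add] at h2
      exact h2.symm.trans (hks t ht)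
    have h3 : s % ℓ t = s := Nat.mod_eq_of_lt (by have := hℓK t; omega)
    rw [hI, mem_erase, mem_range] at ht
    have h4 : t % ℓ t = t := Nat.mod_eq_of_lt (by have := hℓK t; omega)
    unfold Nat.ModEq at h1
    rw [h3, h4] at h1
    exact ht.1 h1.symm
  set L := ∏ t ∈ I, ℓ t with hL
  have hL0 : L ≠ 0 := prod_ne_zero_iff.2 fun t _ => (hℓp t).ne_zero
  obtain ⟨q, hqB, hq, hqk⟩ := Nat.forall_exists_prime_gt_and_modEq (B + K * K + 4 * K + L) hL0 hcop
  have hLt : ∀ t ∈ I, ℓ t ∣ L := fun t ht => dvd_prod_of_mem ℓ ht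
  have hcomp : ∀ t ≤ K, t ≠ s → ¬ (q + s - t).Prime := by
    intro t ht hts hp
    have htI : t ∈ I := by
      rw [hI, mem_erase, mem_range]
      exact ⟨hts, by omega⟩
    have h1 : q + s ≡ t [MOD ℓ t] := ((hqk.of_dvd (hLt t htI)).add_right s).trans (hks t htI)
    have h2 : ℓ t ∣ q + s - t := by
      have h3 := (Nat.modEq_iff_dvd' (by omega : t ≤ q + s)).1 h1.symm
      exact h3
    have h3 := (Nat.prime_dvd_prime_iff_eq (hℓp t) hp).1 h2
    have h4 : ℓ t ≤ L := Nat.le_of_dvd (Nat.pos_of_ne_zero hL0) (hLt t htI)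
    omega
  have hqT : q ∉ T := by
    intro h
    have := single_le_sum (f := fun p : ℕ => p) (fun i _ => Nat.zero_le _) h
    omega
  have hP1 : 1 ≤ P := one_le_prod T fun p hp => (hT.1 p hp).two_le
  refine ⟨q, by omega, hqT, ?_, ?_⟩
  · intro p hp
    rw [mem_insert] at hp
    rcases hp with rfl | hp
    · exact hq
    · exact hT.1 p hp
  intro U hU hsum hne
  rw [sum_insert hqT, ← hs] at hsum
  rw [prod_insert hqT, ← hP]
  have hUne : U.Nonempty := by
    rw [nonempty_iff_ne_empty]
    rintro rfl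
    rw [sum_empty] at hsum
    have := hq.pos
    omega
  set m := U.max' hUne with hm
  have hmU : m ∈ U := max'_mem _ _
  have hsplit : m + ∑ p ∈ U.erase m, p = q + s := by
    rw [add_sum_erase U (fun p => p) hmU, hsum]
  have hprod : ∏ p ∈ U, p = m * ∏ p ∈ U.erase m, p := (mul_prod_erase U (fun p => p) hmU).symm
  set t := ∑ p ∈ U.erase m, p with ht
  rw [hprod]
  rcases Nat.lt_or_ge K t with hKt | hKt
  · -- two large parts
    have h1 : t ≤ ∏ p ∈ U.erase m, p := by
      rw [ht]
      exact sum_le_prod _ fun p hp => (hU p (mem_of_mem_erase hp)).two_le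
    have h2 : K ≤ m := by
      by_contra hcon
      push Not at hcon
      have h3 : U ⊆ range (m + 1) := by
        intro p hp
        rw [mem_range]
        have := le_max' U p hp
        omega
      have h4 : ∑ p ∈ U, p ≤ ∑ p ∈ range (m + 1), p := sum_le_sum_of_subset h3
      have h5 : (∑ p ∈ range (m + 1), p) ≤ (m + 1) * m := by
        have := Finset.sum_range_id_mul_two (m + 1)
        rw [Nat.add_sub_cancel] at this
        omega
      have h6 : (m + 1) * m ≤ K * K := Nat.mul_le_mul (by omega) (by omega)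
      omega
    have h3 : q * P < m * t := by
      have h4 : K * (q + s) ≤ m * t + K * K := by
        obtain ⟨a, ha⟩ : ∃ a, m = K + a := ⟨m - K, by omega⟩
        obtain ⟨b, hb⟩ : ∃ b, t = K + b := ⟨t - K, by omega⟩
        rw [← hsplit, ha, hb]
        nlinarith [Nat.zero_le (a * b)]
      have h5 : 2 * K ≤ q := by omega
      have h6 : 2 * (K * K) ≤ K * q := by nlinarith
      have h7 : (2 * P + 2) * q ≤ K * q := Nat.mul_le_mul_right _ (by omega)
      nlinarith
    calc q * P < m * t := h3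
      _ ≤ _ := Nat.mul_le_mul_left _ h1
  · -- the largest part is `q`
    have h1 : m = q + s - t := by omega
    have h2 : t = s := by
      by_contra hts
      apply hcomp t hKt hts
      rw [← h1]
      exact hU m hmU
    have h3 : m = q := by omega
    have h4 : ∏ p ∈ T, p < ∏ p ∈ U.erase m, p := by
      apply hT.2
      · intro p hp
        exact hU p (mem_of_mem_erase hp)
      · rw [← ht, h2]
      · intro h
        apply hne
        rw [← h, h3]
        rw [h3] at hmU
        exact (insert_erase hmU).symm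
    rw [h3] at h4 ⊢
    exact Nat.mul_lt_mul_of_pos_left h4 hq.pos

theorem cheap_exists (j B : ℕ) : ∃ T : Finset ℕ, Cheap T ∧ T.card = j + 1 ∧ B ≤ ∑ p ∈ T, p := by
  classical
  induction j with
  | zero =>
    obtain ⟨q, h1, h2, h3⟩ := step cheap_empty B
    refine ⟨insert q ∅, h3, by simp, ?_⟩
    rw [sum_insert h2]
    omega
  | succ j ih =>
    obtain ⟨T, h1, h2, h3⟩ := ih
    obtain ⟨q, h4, h5, h6⟩ := step h1 B
    refine ⟨insert q T, h6, by rw [card_insert_of_notMem h5, h2], ?_⟩
    rw [sum_insert h5]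
    omega

/-! ### the product of a set of numbers at most `y` with given sum -/

/-- the lower bound -/
def F (y S : ℕ) : ℕ :=
  if S % y = 0 then y ^ (S / y) else if S % y = 1 then 2 * (y - 1) * y ^ (S / y - 1) else y ^ (S / y) * (S % y)

theorem F_step {y S a : ℕ} (hy : 4 ≤ y) (hS : S ≠ 1) (ha : 2 ≤ a) (hay : a ≤ y) :
    F y (S + a) ≤ a * F y S := by
  obtain ⟨m, t, ht, rfl⟩ : ∃ m t, t < y ∧ S = m * y + t :=
    ⟨S / y, S % y, Nat.mod_lt _ (by omega), by rw [mul_comm]; exact (Nat.div_add_mod S y).symm⟩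
  obtain ⟨z, rfl⟩ : ∃ z, y = z + 4 := ⟨y - 4, by omega⟩
  have e1 : (m * (z + 4) + t) % (z + 4) = t := by
    rw [Nat.add_comm, Nat.add_mul_mod_self_right, Nat.mod_eq_of_lt ht]
  have e2 : (m * (z + 4) + t) / (z + 4) = m := by
    rw [Nat.add_comm, Nat.add_mul_div_right _ _ (by omega), Nat.div_eq_of_lt ht, zero_add]
  have hpow : 0 < (z + 4) ^ m := pow_pos (by omega) _
  rcases Nat.lt_or_ge (t + a) (z + 4) with h | h
  · have e3 : (m * (z + 4) + t + a) % (z + 4) = t + a := by
      rw [add_assoc, Nat.add_comm, Nat.add_mul_mod_self_right, Nat.mod_eq_of_lt h]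
    have e4 : (m * (z + 4) + t + a) / (z + 4) = m := by
      rw [add_assoc, Nat.add_comm, Nat.add_mul_div_right _ _ (by omega), Nat.div_eq_of_lt h, zero_add]
    unfold F
    rw [e1, e2, e3, e4, if_neg (by omega), if_neg (by omega)]
    split_ifs with h0 h1
    · subst h0
      rw [zero_add, mul_comm]
    · subst h1
      obtain ⟨n, rfl⟩ : ∃ n, m = n + 1 := ⟨m - 1, by
        have : m ≠ 0 := by
          rintro rfl
          apply hS
          simp
        omega⟩
      have e5 : z + 4 - 1 = z + 3 := by omega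
      rw [Nat.add_sub_cancel, pow_succ, e5]
      have : (z + 4) * (1 + a) ≤ a * (2 * (z + 3)) := by nlinarith
      calc (z + 4) ^ n * (z + 4) * (1 + a) = (z + 4) ^ n * ((z + 4) * (1 + a)) := by ring
        _ ≤ (z + 4) ^ n * (a * (2 * (z + 3))) := Nat.mul_le_mul_left _ this
        _ = _ := by ring
    · have : t + a ≤ a * t := by
        obtain ⟨u, rfl⟩ : ∃ u, t = u + 2 := ⟨t - 2, by omega⟩
        obtain ⟨v, rfl⟩ : ∃ v, a = v + 2 := ⟨a - 2, by omega⟩
        nlinarith [Nat.zero_le (u * v)]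
      calc (z + 4) ^ m * (t + a) ≤ (z + 4) ^ m * (a * t) := Nat.mul_le_mul_left _ this
        _ = _ := by ring
  · obtain ⟨t', ht'⟩ : ∃ t', t + a = (z + 4) + t' := ⟨t + a - (z + 4), by omega⟩
    have ht'2 : t' < z + 4 := by omega
    have e0 : m * (z + 4) + t + a = (m + 1) * (z + 4) + t' := by
      rw [add_assoc, ht']
      ring
    have e3 : (m * (z + 4) + t + a) % (z + 4) = t' := by
      rw [e0, Nat.add_comm, Nat.add_mul_mod_self_right, Nat.mod_eq_of_lt ht'2]
    have e4 : (m * (z + 4) + t + a) / (z + 4) = m + 1 := by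
      rw [e0, Nat.add_comm, Nat.add_mul_div_right _ _ (by omega), Nat.div_eq_of_lt ht'2, zero_add]
    have e5 : z + 4 - 1 = z + 3 := by omega
    unfold F
    rw [e1, e2, e3, e4, Nat.add_sub_cancel, e5]
    -- `t = 0` forces `a = y`
    rcases Nat.lt_or_ge t 2 with ht2 | ht2
    · have hcase : t = 0 ∨ t = 1 := by omega
      rcases hcase with rfl | rfl
      · have ha' : a = z + 4 := by omega
        have ht0 : t' = 0 := by omega
        subst ha' ht0
        rw [if_pos rfl, if_pos rfl, pow_succ, mul_comm]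
      · obtain ⟨n, rfl⟩ : ∃ n, m = n + 1 := ⟨m - 1, by
          have : m ≠ 0 := by
            rintro rfl
            apply hS
            simp
          omega⟩
        rw [if_neg (show ¬ (1 : ℕ) = 0 by norm_num), if_pos (show (1 : ℕ) = 1 from rfl), Nat.add_sub_cancel]
        have hcase : t' = 0 ∨ t' = 1 := by omega
        rcases hcase with rfl | rfl
        · have ha' : a = z + 3 := by omega
          subst ha'
          rw [if_pos rfl, pow_succ, pow_succ]
          have : (z + 4) * (z + 4) ≤ (z + 3) * (2 * (z + 3)) := by nlinarith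
          calc (z + 4) ^ n * (z + 4) * (z + 4) = (z + 4) ^ n * ((z + 4) * (z + 4)) := by ring
            _ ≤ (z + 4) ^ n * ((z + 3) * (2 * (z + 3))) := Nat.mul_le_mul_left _ this
            _ = _ := by ring
        · have ha' : a = z + 4 := by omega
          subst ha'
          rw [if_neg (show ¬ (1 : ℕ) = 0 by norm_num), if_pos (show (1 : ℕ) = 1 from rfl), pow_succ]
          apply le_of_eq
          ring
    · rw [if_neg (show ¬ t = 0 by omega), if_neg (show ¬ t = 1 by omega)]
      split_ifs with h0 h1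
      · subst h0
        rw [add_zero] at ht'
        have : z + 4 ≤ a * t := by
          rw [← ht']
          obtain ⟨u, rfl⟩ : ∃ u, t = u + 2 := ⟨t - 2, by omega⟩
          obtain ⟨v, rfl⟩ : ∃ v, a = v + 2 := ⟨a - 2, by omega⟩
          nlinarith [Nat.zero_le (u * v)]
        calc (z + 4) ^ (m + 1) = (z + 4) ^ m * (z + 4) := pow_succ _ _
          _ ≤ (z + 4) ^ m * (a * t) := Nat.mul_le_mul_left _ this
          _ = _ := by ring
      · subst h1
        have : 2 * (z + 3) ≤ a * t := by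
          obtain ⟨u, rfl⟩ : ∃ u, t = u + 2 := ⟨t - 2, by omega⟩
          obtain ⟨v, rfl⟩ : ∃ v, a = v + 2 := ⟨a - 2, by omega⟩
          nlinarith [Nat.zero_le (u * v)]
        calc 2 * (z + 3) * (z + 4) ^ m ≤ a * t * (z + 4) ^ m := Nat.mul_le_mul_right _ this
          _ = _ := by ring
      · have : (z + 4) * t' ≤ a * t := by
          obtain ⟨u, hu⟩ : ∃ u, z + 4 = a + u := ⟨z + 4 - a, by omega⟩
          obtain ⟨v, hv⟩ : ∃ v, z + 4 = t + v := ⟨z + 4 - t, by omega⟩
          have e6 : t' + u = t := by omega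
          have e7 : t' + v = a := by omega
          rw [← e6, ← e7] at *
          nlinarith [Nat.zero_le (u * v)]
        calc (z + 4) ^ (m + 1) * t' = (z + 4) ^ m * ((z + 4) * t') := by rw [pow_succ]; ring
          _ ≤ (z + 4) ^ m * (a * t) := Nat.mul_le_mul_left _ this
          _ = _ := by ring

theorem F_le {y : ℕ} (hy : 4 ≤ y) (R : Finset ℕ) (hR : ∀ r ∈ R, 2 ≤ r ∧ r ≤ y) :
    F y (∑ r ∈ R, r) ≤ ∏ r ∈ R, r := by
  classical
  induction R using Finset.induction_on with
  | empty => simp [F]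
  | insert a R ha ih =>
    rw [sum_insert ha, prod_insert ha, add_comm]
    have h1 := hR a (mem_insert_self _ _)
    refine (F_step hy ?_ h1.1 h1.2).trans ?_
    · intro hcon
      have h2 : R.Nonempty := by
        rw [nonempty_iff_ne_empty]
        rintro rfl
        simp at hcon
      obtain ⟨r, hr⟩ := h2
      have h3 := single_le_sum (f := fun p : ℕ => p) (fun i _ => Nat.zero_le _) hr
      have h4 := (hR r (mem_insert_of_mem hr)).1
      omega
    · exact Nat.mul_le_mul_left _ (ih fun r hr => hR r (mem_insert_of_mem hr))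

theorem F_ge {y m t : ℕ} (hy : 4 ≤ y) (ht : t < y) : (m ≠ 0 ∨ t ≠ 1) → y ^ m ≤ F y (m * y + t) ∧
    (2 ≤ t → y ^ m * t = F y (m * y + t)) := by
  intro hmt
  have e1 : (m * y + t) % y = t := by
    rw [Nat.add_comm, Nat.add_mul_mod_self_right, Nat.mod_eq_of_lt ht]
  have e2 : (m * y + t) / y = m := by
    rw [Nat.add_comm, Nat.add_mul_div_right _ _ (by omega), Nat.div_eq_of_lt ht, zero_add]
  unfold F
  rw [e1, e2]
  split_ifs with h0 h1
  · exact ⟨le_rfl, fun h => absurd h (by omega)⟩
  · refine ⟨?_, fun h => absurd h (by omega)⟩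
    obtain ⟨n, rfl⟩ : ∃ n, m = n + 1 := ⟨m - 1, by omega⟩
    rw [Nat.add_sub_cancel, pow_succ, mul_comm]
    exact Nat.mul_le_mul_right _ (by omega)
  · exact ⟨Nat.le_mul_of_pos_right _ (by omega), fun _ => rfl⟩

/-- removing `R` and adding `E` is worse than removing a set with product `P` -/
theorem exchange {y N d P : ℕ} (hN : 3 * P < N) (hN2 : 2 ≤ N) (hy4 : 4 ≤ y) (hyP : 9 * P < y)
    (R E : Finset ℕ) (hR : ∀ r ∈ R, 2 ≤ r ∧ r ≤ y) (hE : ∀ e ∈ E, y + N ≤ e) (hEne : E.Nonempty)
    (hsum : ∑ r ∈ R, r = d + ∑ e ∈ E, e) : P * ∏ e ∈ E, e < ∏ r ∈ R, r := by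
  classical
  set G := ∑ e ∈ E, (e - y) with hG
  have h1 : ∑ e ∈ E, e = E.card * y + G := by
    rw [hG, ← smul_eq_mul, ← sum_const, ← sum_add_distrib]
    apply sum_congr rfl
    intro e he
    have := hE e he
    omega
  have hGN : N ≤ G := by
    obtain ⟨e, he⟩ := hEne
    have h2 := single_le_sum (f := fun e => e - y) (fun i _ => Nat.zero_le _) he
    have h3 := hE e he
    omega
  have hcard : 1 ≤ E.card := card_pos.2 hEne
  set q := (d + G) / y with hq
  set t := (d + G) % y with ht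
  have hty : t < y := Nat.mod_lt _ (by omega)
  have hdG : d + G = q * y + t := by
    rw [mul_comm]
    exact (Nat.div_add_mod _ _).symm
  have h2 : ∑ r ∈ R, r = (E.card + q) * y + t := by
    rw [hsum, h1]
    have : d + (E.card * y + G) = E.card * y + (d + G) := by ring
    rw [this, hdG]
    ring
  have h3 := F_le hy4 R hR
  rw [h2] at h3
  clear_value q t G
  obtain ⟨h4, h5⟩ := F_ge (m := E.card + q) hy4 hty (Or.inl (by omega))
  -- the product over `E`
  have hy0 : (0 : ℝ) < y := by exact_mod_cast (by omega : 0 < y)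
  have h6 : (∏ e ∈ E, (e : ℝ)) ≤ (y : ℝ) ^ E.card * Real.exp (G / y) := by
    have h7 : ∀ e ∈ E, (e : ℝ) ≤ y * Real.exp (((e - y : ℕ) : ℝ) / y) := by
      intro e he
      have h8 := Real.add_one_le_exp (((e - y : ℕ) : ℝ) / y)
      have h9 : (e : ℝ) = y * (((e - y : ℕ) : ℝ) / y + 1) := by
        have h10 : y ≤ e := by have := hE e he; omega
        rw [Nat.cast_sub h10]
        field_simp
        ring
      calc (e : ℝ) = y * (((e - y : ℕ) : ℝ) / y + 1) := h9
        _ ≤ _ := mul_le_mul_of_nonneg_left h8 hy0.le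
    calc (∏ e ∈ E, (e : ℝ)) ≤ ∏ e ∈ E, (y * Real.exp (((e - y : ℕ) : ℝ) / y)) :=
          prod_le_prod (fun e _ => Nat.cast_nonneg _) h7
      _ = (y : ℝ) ^ E.card * Real.exp (G / y) := by
        rw [prod_mul_distrib, prod_const, ← Real.exp_sum, ← sum_div, hG]
        push_cast
        rfl
  have hexp1 : Real.exp 1 < 3 := by
    have := Real.exp_one_lt_d9
    linarith
  have hexp0 : 0 < Real.exp 1 := Real.exp_pos 1
  have hP0 : (0 : ℝ) ≤ P := Nat.cast_nonneg _
  have key : (P : ℝ) * ∏ e ∈ E, (e : ℝ) < ((∏ r ∈ R, r : ℕ) : ℝ) := by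
    rcases Nat.eq_zero_or_pos q with hq0 | hq0
    · -- no carry
      rw [hq0] at h4 h5 h3 hdG
      rw [zero_mul, zero_add] at hdG
      rw [add_zero] at h3 h4 h5
      have ht2 : N ≤ t := by omega
      have h7 := h5 (by omega)
      rw [← h7] at h3
      have h8 : Real.exp (G / y) ≤ Real.exp 1 := by
        apply Real.exp_le_exp.2
        rw [div_le_one hy0]
        exact_mod_cast (by omega : G ≤ y)
      have h9 : (y : ℝ) ^ E.card * t ≤ ((∏ r ∈ R, r : ℕ) : ℝ) := by exact_mod_cast h3
      have hyc : (0 : ℝ) < (y : ℝ) ^ E.card := by positivity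
      have h10 : (3 * P : ℝ) < t := by exact_mod_cast (by omega : 3 * P < t)
      calc (P : ℝ) * ∏ e ∈ E, (e : ℝ) ≤ P * ((y : ℝ) ^ E.card * Real.exp (G / y)) :=
            mul_le_mul_of_nonneg_left h6 hP0
        _ ≤ P * ((y : ℝ) ^ E.card * 3) := by
            apply mul_le_mul_of_nonneg_left _ hP0
            apply mul_le_mul_of_nonneg_left _ hyc.le
            linarith
        _ = (y : ℝ) ^ E.card * (3 * P) := by ring
        _ < (y : ℝ) ^ E.card * t := mul_lt_mul_of_pos_left h10 hyc
        _ ≤ _ := h9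
    · have h8 : Real.exp (G / y) ≤ Real.exp 1 ^ (q + 1) := by
        rw [← Real.exp_nat_mul]
        apply Real.exp_le_exp.2
        rw [div_le_iff₀ hy0]
        have : G ≤ (q + 1) * y := by
          have : (q + 1) * y = q * y + y := by ring
          omega
        push_cast
        rw [mul_one]
        exact_mod_cast this
      have h9 : (y : ℝ) ^ (E.card + q) ≤ ((∏ r ∈ R, r : ℕ) : ℝ) := by exact_mod_cast h4.trans h3
      have hyc : (0 : ℝ) < (y : ℝ) ^ E.card := by positivity
      have hye : Real.exp 1 ≤ y := by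
        have : (4 : ℝ) ≤ y := by exact_mod_cast hy4
        linarith
      have h10 : (P : ℝ) * Real.exp 1 ^ (q + 1) < (y : ℝ) ^ q := by
        obtain ⟨n, rfl⟩ : ∃ n, q = n + 1 := ⟨q - 1, by omega⟩
        have h11 : Real.exp 1 ^ n ≤ (y : ℝ) ^ n := pow_le_pow_left₀ hexp0.le hye n
        have h12 : (P : ℝ) * Real.exp 1 ^ 2 < y := by
          have h13 : Real.exp 1 ^ 2 ≤ 9 := by nlinarith
          have h14 : (9 * P : ℝ) < y := by exact_mod_cast hyP
          nlinarith
        have hyn : (0 : ℝ) < (y : ℝ) ^ n := by positivity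
        calc (P : ℝ) * Real.exp 1 ^ (n + 1 + 1) = Real.exp 1 ^ n * (P * Real.exp 1 ^ 2) := by ring
          _ ≤ (y : ℝ) ^ n * (P * Real.exp 1 ^ 2) := mul_le_mul_of_nonneg_right h11 (by positivity)
          _ < (y : ℝ) ^ n * y := mul_lt_mul_of_pos_left h12 hyn
          _ = _ := by ring
      calc (P : ℝ) * ∏ e ∈ E, (e : ℝ) ≤ P * ((y : ℝ) ^ E.card * Real.exp (G / y)) :=
            mul_le_mul_of_nonneg_left h6 hP0
        _ ≤ P * ((y : ℝ) ^ E.card * Real.exp 1 ^ (q + 1)) := by
            apply mul_le_mul_of_nonneg_left _ hP0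
            exact mul_le_mul_of_nonneg_left h8 hyc.le
        _ = (y : ℝ) ^ E.card * (P * Real.exp 1 ^ (q + 1)) := by ring
        _ < (y : ℝ) ^ E.card * (y : ℝ) ^ q := mul_lt_mul_of_pos_left h10 hyc
        _ = (y : ℝ) ^ (E.card + q) := by rw [pow_add]
        _ ≤ _ := h9
  have : ((P * ∏ e ∈ E, e : ℕ) : ℝ) < ((∏ r ∈ R, r : ℕ) : ℝ) := by
    push_cast at key ⊢
    exact key
  exact_mod_cast this

end Pool.Agent.Q53.DP
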