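import Pool.Agent.W276.Gold

/-!
# Every large integer is a sum of at most five distinct primes
-/

set_option autoImplicit false

open Finset Filter

namespace Pool.Agent.Q53.DP

open Pool.Agent.W276.Gold

theorem avoid (n : ℕ) (A : Finset ℕ) (h : 2 * A.card + 1 < rep n) :
    ∃ p q : ℕ, p.Prime ∧ q.Prime ∧ p + q = n ∧ p ≠ q ∧ p ∉ A ∧ q ∉ A := by
  classical
  set Bd : Finset (ℕ × ℕ) := A.image (fun a => (a, n - a)) ∪ A.image (fun a => (n - a, a)) ∪ {(n / 2, n / 2)}
    with hBd
  have h1 : Bd.card ≤ 2 * A.card + 1 := by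
    rw [hBd]
    have h2 := card_union_le (A.image (fun a => (a, n - a)) ∪ A.image (fun a => (n - a, a))) {(n / 2, n / 2)}
    have h3 := card_union_le (A.image (fun a => (a, n - a))) (A.image (fun a => (n - a, a)))
    have h4 := card_image_le (s := A) (f := fun a => (a, n - a))
    have h5 := card_image_le (s := A) (f := fun a => (n - a, a))
    rw [card_singleton] at h2
    omega
  obtain ⟨⟨p, q⟩, hq, hq'⟩ := exists_mem_notMem_of_card_lt_card (lt_of_le_of_lt h1 h)
  rw [mem_filter, HasAntidiagonal.mem_antidiagonal] at hq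
  obtain ⟨h2, h3, h4⟩ := hq
  simp only at h2 h3 h4
  refine ⟨p, q, h3, h4, h2, ?_, ?_, ?_⟩
  · rintro rfl
    apply hq'
    rw [hBd, mem_union]
    right
    rw [mem_singleton]
    ext <;> simp <;> omega
  · intro hp
    apply hq'
    rw [hBd, mem_union, mem_union]
    left; left
    rw [mem_image]
    exact ⟨p, hp, by ext <;> simp; omega⟩
  · intro hp
    apply hq'
    rw [hBd, mem_union, mem_union]
    left; right
    rw [mem_image]
    exact ⟨q, hp, by ext <;> simp; omega⟩

theorem split (hM : Many) : ∃ e0 : ℕ, ∀ e : ℕ, e0 ≤ e → ∃ m : ℕ, m ≤ e ∧ 7 < rep (2 * m) ∧ 7 < rep (2 * (e - m)) := by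
  classical
  obtain ⟨N0, hN0⟩ := hM
  have e1 : ∀ᶠ x : ℝ in atTop, 8 * Real.log (2 * x) ^ 2 ≤ x := by
    have h1 : Tendsto (fun x : ℝ => Real.log x ^ 2 / x) atTop (nhds 0) := by
      have h3 := isLittleO_log_rpow_rpow_atTop (s := 1) 2 (show (0 : ℝ) < 1 by norm_num)
      have h4 := h3.tendsto_div_nhds_zero
      refine h4.congr' ?_
      filter_upwards [eventually_gt_atTop 0] with x hx
      rw [Real.rpow_one]
      congr 1
      exact_mod_cast Real.rpow_natCast (Real.log x) 2
    have h2 : Tendsto (fun x : ℝ => 2 * x) atTop atTop := tendsto_id.const_mul_atTop (by norm_num)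
    have h3 := (h1.comp h2).eventually (eventually_lt_nhds (show (0 : ℝ) < 1 / 16 by norm_num))
    filter_upwards [h3, eventually_gt_atTop 0] with x hx hx0
    simp only [Function.comp] at hx
    rw [div_lt_iff₀ (by linarith)] at hx
    linarith
  obtain ⟨x0, hx0⟩ := eventually_atTop.1 e1
  obtain ⟨x1, hx1⟩ := eventually_atTop.1 (Real.tendsto_log_atTop.eventually (eventually_ge_atTop (100 : ℝ)))
  refine ⟨N0 + 4 * (⌈x0⌉₊ + 2) + ⌈x1⌉₊ + 1000, fun e he => ?_⟩
  obtain ⟨S, hS, hSc, hgood⟩ := hN0 (2 * e) (by omega)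
  have he2 : 2 * e / 2 = e := by omega
  rw [he2] at hS hgood
  have hlog : 100 ≤ Real.log ((2 * e : ℕ) : ℝ) := by
    apply hx1
    have h1 := Nat.le_ceil x1
    have h2 : (⌈x1⌉₊ : ℝ) ≤ ((2 * e : ℕ) : ℝ) := by exact_mod_cast (by omega : ⌈x1⌉₊ ≤ 2 * e)
    linarith
  have hSe : 100 * S.card ≤ e := by
    have h1 : (S.card : ℝ) * 100 ≤ S.card * Real.log ((2 * e : ℕ) : ℝ) :=
      mul_le_mul_of_nonneg_left hlog (Nat.cast_nonneg _)
    have h2 := h1.trans hSc
    push_cast at h2
    have h3 : (100 * S.card : ℝ) ≤ e := by linarith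
    exact_mod_cast h3
  set J := Icc (e / 4 + 1) (e / 2) with hJ
  have hex : ∃ m ∈ J, m ∉ S ∧ e - m ∉ S := by
    by_contra hcon
    push Not at hcon
    have hsub : J ⊆ S ∪ (J.filter (fun m => e - m ∈ S)) := by
      intro m hm
      by_cases h : m ∈ S
      · exact mem_union_left _ h
      · exact mem_union_right _ (mem_filter.2 ⟨hm, hcon m hm h⟩)
    have h1 := (card_le_card hsub).trans (card_union_le _ _)
    have h2 : (J.filter (fun m => e - m ∈ S)).card ≤ S.card := by
      apply card_le_card_of_injOn (fun m => e - m)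
      · intro m hm
        exact (mem_filter.1 hm).2
      · intro a ha b hb hab
        have ha1 := mem_Icc.1 (mem_filter.1 ha).1
        have hb1 := mem_Icc.1 (mem_filter.1 hb).1
        simp only at hab
        omega
    have h3 : J.card = e / 2 + 1 - (e / 4 + 1) := by rw [hJ, Nat.card_Icc]
    omega
  obtain ⟨m, hmJ, hm1, hm2⟩ := hex
  rw [hJ, mem_Icc] at hmJ
  have hbig : ∀ n : ℕ, e / 4 ≤ n → 7 < (2 * n : ℝ) / (2 * Real.log (2 * n) ^ 2) := by
    intro n hn
    have h1 : x0 ≤ n := by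
      have h2 := Nat.le_ceil x0
      have h3 : (⌈x0⌉₊ : ℝ) ≤ n := by exact_mod_cast (by omega : ⌈x0⌉₊ ≤ n)
      linarith
    have h2 := hx0 n h1
    have hn1 : (1 : ℝ) ≤ n := by exact_mod_cast (by omega : 1 ≤ n)
    have h3 : 0 < Real.log (2 * n) := Real.log_pos (by linarith)
    rw [lt_div_iff₀ (by positivity)]
    nlinarith [sq_nonneg (Real.log (2 * (n : ℝ)))]
  refine ⟨m, by omega, ?_, ?_⟩
  · have h1 := hgood m (mem_Icc.2 ⟨by omega, by omega⟩) hm1
    have h2 := hbig m (by omega)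
    exact_mod_cast h2.trans_le h1
  · have h1 := hgood (e - m) (mem_Icc.2 ⟨by omega, by omega⟩) hm2
    have h2 := hbig (e - m) (by omega)
    exact_mod_cast h2.trans_le h1

theorem five (hM : Many) : ∃ d0 : ℕ, ∀ d : ℕ, d0 ≤ d → ∃ U : Finset ℕ, U.card ≤ 5 ∧ (∀ p ∈ U, p.Prime) ∧
    ∑ p ∈ U, p = d := by
  classical
  obtain ⟨e0, h0⟩ := split hM
  refine ⟨2 * e0 + 3, fun d hd => ?_⟩
  -- four primes different from `3`
  have key : ∀ e : ℕ, e0 ≤ e → ∃ U : Finset ℕ, U.card ≤ 4 ∧ (∀ p ∈ U, p.Prime) ∧ 3 ∉ U ∧ ∑ p ∈ U, p = 2 * e := by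
    intro e he
    obtain ⟨m, hme, h1, h2⟩ := h0 e he
    obtain ⟨p1, p2, a1, a2, a3, a4, a5, a6⟩ := avoid (2 * m) {3} (by rw [card_singleton]; omega)
    obtain ⟨p3, p4, b1, b2, b3, b4, b5, b6⟩ := avoid (2 * (e - m)) {3, p1, p2} (by
      have : ({3, p1, p2} : Finset ℕ).card ≤ 3 := card_le_three
      omega)
    simp only [mem_insert, mem_singleton, not_or] at a5 a6 b5 b6
    refine ⟨{p1, p2, p3, p4}, card_le_four, ?_, ?_, ?_⟩
    · intro p hp
      simp only [mem_insert, mem_singleton] at hp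
      rcases hp with rfl | rfl | rfl | rfl <;> assumption
    · simp only [mem_insert, mem_singleton, not_or]
      exact ⟨fun h => a5 h.symm, fun h => a6 h.symm, fun h => b5.1 h.symm, fun h => b6.1 h.symm⟩
    · rw [sum_insert, sum_insert, sum_insert, sum_singleton]
      · omega
      · rw [mem_singleton]; exact b4
      · simp only [mem_insert, mem_singleton, not_or]
        exact ⟨fun h => b5.2.2 h.symm, fun h => b6.2.2 h.symm⟩
      · simp only [mem_insert, mem_singleton, not_or]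
        exact ⟨a4, fun h => b5.2.1 h.symm, fun h => b6.2.1 h.symm⟩
  rcases Nat.even_or_odd d with ⟨e, he⟩ | ⟨e, he⟩
  · obtain ⟨U, h1, h2, _, h4⟩ := key e (by omega)
    exact ⟨U, by omega, h2, by omega⟩
  · obtain ⟨U, h1, h2, h3, h4⟩ := key (e - 1) (by omega)
    refine ⟨insert 3 U, (card_insert_le _ _).trans (by omega), ?_, ?_⟩
    · intro p hp
      rw [mem_insert] at hp
      rcases hp with rfl | hp
      · exact Nat.prime_three
      · exact h2 p hp
    · rw [sum_insert h3, h4]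
      omega

end Pool.Agent.Q53.DP
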